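import Pool.Agent.helper15.P2.SpecI

set_option autoImplicit false

/-!
# Project P2 (MP_063734_an), row TCH: the obstruction point
-/

open scoped ContDiff Topology ComplexConjugate
open MeasureTheory Filter Set Metric

namespace Pool.Agent.P2I

open Pool.Agent.P2

/-- sublevel sets of a quadratic function with nonnegative leading coefficient are convex -/
lemma TCH_quad (A B C D : ℝ) (hA : 0 ≤ A) :
    Convex ℝ {t : ℂ | A * (t.re ^ 2 + t.im ^ 2) + B * t.re + C * t.im + D < 0} := by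
  intro x hx y hy a b ha hb hab
  simp only [mem_ofPred_eq] at hx hy ⊢
  have hre : (a • x + b • y).re = a * x.re + b * y.re := by simp
  have him : (a • x + b • y).im = a * x.im + b * y.im := by simp
  rw [hre, him]
  have h1 : (a * x.re + b * y.re) ^ 2 + (a * x.im + b * y.im) ^ 2 ≤
      a * (x.re ^ 2 + x.im ^ 2) + b * (y.re ^ 2 + y.im ^ 2) := by
    have hb' : b = 1 - a := by linarith
    subst hb'
    have h2 : 0 ≤ a * (1 - a) * ((x.re - y.re) ^ 2 + (x.im - y.im) ^ 2) := by positivity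
    nlinarith [h2]
  have h3 : A * ((a * x.re + b * y.re) ^ 2 + (a * x.im + b * y.im) ^ 2) ≤
      A * (a * (x.re ^ 2 + x.im ^ 2) + b * (y.re ^ 2 + y.im ^ 2)) := mul_le_mul_of_nonneg_left h1 hA
  have h4 : A * (a * (x.re ^ 2 + x.im ^ 2) + b * (y.re ^ 2 + y.im ^ 2)) +
      B * (a * x.re + b * y.re) + C * (a * x.im + b * y.im) + D =
      a * (A * (x.re ^ 2 + x.im ^ 2) + B * x.re + C * x.im + D) +
        b * (A * (y.re ^ 2 + y.im ^ 2) + B * y.re + C * y.im + D) := by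
    have hb' : b = 1 - a := by linarith
    subst hb'
    ring
  have h5 : a * (A * (x.re ^ 2 + x.im ^ 2) + B * x.re + C * x.im + D) +
        b * (A * (y.re ^ 2 + y.im ^ 2) + B * y.re + C * y.im + D) < 0 := by
    rcases eq_or_lt_of_le ha with h | h
    · have hb1 : b = 1 := by linarith
      rw [← h, hb1]; linarith
    · have := mul_neg_of_pos_of_neg h hx
      have := mul_nonpos_of_nonneg_of_nonpos hb hy.le
      linarith
  linarith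

/-- the region `‖t - t₀‖ < τ ‖1 + conj t₀ t‖` -/
def TCH_G (t₀ : ℂ) (τ : ℝ) : Set ℂ := {t : ℂ | ‖t - t₀‖ < τ * ‖1 + conj t₀ * t‖}

lemma TCH_G_convex (t₀ : ℂ) (τ : ℝ) (hτ0 : 0 < τ) (hτ1 : τ ≤ 1) (ht : ‖t₀‖ < 1) : Convex ℝ (TCH_G t₀ τ) := by
  have hset : TCH_G t₀ τ = {t : ℂ | (1 - τ ^ 2 * (t₀.re ^ 2 + t₀.im ^ 2)) * (t.re ^ 2 + t.im ^ 2) +
      (-(2 * (1 + τ ^ 2) * t₀.re)) * t.re + (-(2 * (1 + τ ^ 2) * t₀.im)) * t.im +
      (t₀.re ^ 2 + t₀.im ^ 2 - τ ^ 2) < 0} := by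
    ext t
    simp only [TCH_G, mem_ofPred_eq]
    have h1 : ‖t - t₀‖ ^ 2 = (t.re - t₀.re) ^ 2 + (t.im - t₀.im) ^ 2 := by
      rw [← Complex.normSq_eq_norm_sq, Complex.normSq_apply]
      simp only [Complex.sub_re, Complex.sub_im]; ring
    have h2 : ‖1 + conj t₀ * t‖ ^ 2 = (1 + t₀.re * t.re + t₀.im * t.im) ^ 2 +
        (t₀.re * t.im - t₀.im * t.re) ^ 2 := by
      rw [← Complex.normSq_eq_norm_sq, Complex.normSq_apply]
      simp only [Complex.add_re, Complex.add_im, Complex.one_re, Complex.one_im, Complex.mul_re,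
        Complex.mul_im, Complex.conj_re, Complex.conj_im]
      ring
    have h3 : ‖t - t₀‖ < τ * ‖1 + conj t₀ * t‖ ↔ ‖t - t₀‖ ^ 2 < (τ * ‖1 + conj t₀ * t‖) ^ 2 := by
      constructor
      · intro h
        exact pow_lt_pow_left₀ h (norm_nonneg _) (by norm_num)
      · intro h
        exact lt_of_pow_lt_pow_left₀ 2 (by positivity) h
    rw [h3, mul_pow, h1, h2]
    constructor
    · intro h; nlinarith [h]
    · intro h; nlinarith [h]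
  rw [hset]
  apply TCH_quad
  have h1 : t₀.re ^ 2 + t₀.im ^ 2 = ‖t₀‖ ^ 2 := by
    rw [← Complex.normSq_eq_norm_sq, Complex.normSq_apply]; ring
  rw [h1]
  have h2 : τ ^ 2 ≤ 1 := by nlinarith
  have h3 : ‖t₀‖ ^ 2 ≤ 1 := by nlinarith [norm_nonneg t₀]
  nlinarith [sq_nonneg τ, sq_nonneg ‖t₀‖, mul_le_mul h2 h3 (sq_nonneg _) (by norm_num)]

lemma TCH_G_open (t₀ : ℂ) (τ : ℝ) : IsOpen (TCH_G t₀ τ) := by
  unfold TCH_G
  exact isOpen_lt (by fun_prop) (by fun_prop)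

lemma TCH_G_ne (t₀ : ℂ) (τ : ℝ) (t : ℂ) (ht : t ∈ TCH_G t₀ τ) : 1 + conj t₀ * t ≠ 0 := by
  intro h
  have h1 : ‖t - t₀‖ < τ * ‖1 + conj t₀ * t‖ := ht
  rw [h, norm_zero, mul_zero] at h1
  exact absurd h1 (not_lt.mpr (norm_nonneg _))

/-- the change of coordinate -/
noncomputable def TCH_φ (l t₀ t : ℂ) : ℂ := conj l * ((t - t₀) / (1 + conj t₀ * t))

lemma TCH_φ_mem (l t₀ : ℂ) (τ : ℝ) (hl : ‖l‖ = 1) (t : ℂ) (ht : t ∈ TCH_G t₀ τ) :
    TCH_φ l t₀ t ∈ ball (0 : ℂ) τ := by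
  have hne := TCH_G_ne t₀ τ t ht
  rw [mem_ball_zero_iff, TCH_φ, norm_mul, norm_div, RCLike.norm_conj, hl, one_mul,
    div_lt_iff₀ (norm_pos_iff.mpr hne)]
  exact ht

lemma TCH_φ_diff (l t₀ : ℂ) (τ : ℝ) : DifferentiableOn ℂ (TCH_φ l t₀) (TCH_G t₀ τ) := by
  intro t ht
  have hne := TCH_G_ne t₀ τ t ht
  unfold TCH_φ
  apply DifferentiableAt.differentiableWithinAt
  apply DifferentiableAt.const_mul
  exact DifferentiableAt.fun_div (by fun_prop) (by fun_prop) hne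

lemma TCH_φ_inv (l t₀ t : ℂ) (hl : ‖l‖ = 1) (hne : 1 + conj t₀ * t ≠ 0) :
    (l * TCH_φ l t₀ t + t₀) / (1 - conj t₀ * (l * TCH_φ l t₀ t)) = t := by
  have hll : l * conj l = 1 := by
    rw [Complex.mul_conj, Complex.normSq_eq_norm_sq, hl]; norm_num
  have h1 : l * TCH_φ l t₀ t = (t - t₀) / (1 + conj t₀ * t) := by
    rw [TCH_φ, ← mul_assoc, hll, one_mul]
  rw [h1]
  have hc : (1 : ℂ) + conj t₀ * t₀ ≠ 0 := by
    rw [mul_comm, Complex.mul_conj]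
    have : (0 : ℝ) < 1 + Complex.normSq t₀ := by
      have := Complex.normSq_nonneg t₀; linarith
    exact_mod_cast this.ne'
  have h2 : (t - t₀) / (1 + conj t₀ * t) + t₀ = t * (1 + conj t₀ * t₀) / (1 + conj t₀ * t) := by
    rw [eq_div_iff hne, add_mul, div_mul_cancel₀ _ hne]; ring
  have h3 : 1 - conj t₀ * ((t - t₀) / (1 + conj t₀ * t)) = (1 + conj t₀ * t₀) / (1 + conj t₀ * t) := by
    rw [eq_div_iff hne, sub_mul, mul_assoc, div_mul_cancel₀ _ hne]; ring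
  rw [h2, h3, div_div_div_cancel_right₀ hne, mul_div_assoc, div_self hc, mul_one]

/-- local extension -/
lemma TCH_local (hBRA : BRA_stmt) (hBRC : BRC_stmt) (hBRS : BRS_stmt) (P Q : ℂ → ℂ) (hPQ : Adm P Q)
    (z : ℂ) (hz : z ∈ ball (0 : ℂ) 1) (X : ℂ → ℂ) (ρ : ℝ) (hX : Br P Q (ball 0 1) z ρ X)
    (hρ0 : 0 < ρ) (hρ1 : ρ < 1) (u : ℂ) (hu : ‖u‖ = ρ) (t₀ : ℂ) (ht₀ : t₀ ∈ ball (0 : ℂ) ρ)
    (hlt : ‖t₀ - u‖ / ‖1 + conj u * t₀‖ < rh P Q (X t₀)) :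
    ∃ (δ : ℝ) (Y : ℂ → ℂ), 0 < δ ∧ DifferentiableOn ℂ Y (ball u δ) ∧ (∀ s ∈ ball u δ, Y s ∈ ball (0 : ℂ) 1) ∧
      ∀ s ∈ ball u δ, s ∈ ball (0 : ℂ) ρ → Y s = X s := by
  obtain ⟨hXd, hX0, hXe⟩ := hX
  have hz' : X t₀ ∈ ball (0 : ℂ) 1 := (hXe t₀ ht₀).1
  obtain ⟨hr0, hr1, ⟨X', hX'⟩, -, -⟩ := hBRC P Q hPQ (X t₀) hz'
  set τ : ℝ := rh P Q (X t₀) with hτ
  have hτ0 : 0 < τ := lt_of_le_of_lt (by positivity) hlt
  have ht₀n : ‖t₀‖ < ρ := by simpa using ht₀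
  have ht₀1 : ‖t₀‖ < 1 := ht₀n.trans hρ1
  obtain ⟨l, hl, hBr⟩ := hBRS P Q hPQ z hz (ball 0 1) ρ X le_rfl hρ1.le ⟨hXd, hX0, hXe⟩ t₀ ht₀
  -- a small radius
  have hcont : ∀ᶠ s in 𝓝 (0 : ℂ), ‖s + t₀‖ < ρ * ‖1 - conj t₀ * s‖ := by
    have hopen : IsOpen {s : ℂ | ‖s + t₀‖ < ρ * ‖1 - conj t₀ * s‖} := isOpen_lt (by fun_prop) (by fun_prop)
    apply hopen.mem_nhds
    simpa using ht₀n
  obtain ⟨τ'', hτ''0, hτ''⟩ := Metric.eventually_nhds_iff_ball.mp hcont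
  have hBr' := hBr τ'' hτ''
  have huniq := (hBRA P Q hPQ (X t₀) hz').2.2 τ'' τ _ X' hBr' hX'
  obtain ⟨hX'd, hX'0, hX'e⟩ := hX'
  set Y : ℂ → ℂ := fun t => X' (TCH_φ l t₀ t) with hY
  have hYd : DifferentiableOn ℂ Y (TCH_G t₀ τ) := by
    intro t ht
    exact DifferentiableWithinAt.comp (t := ball (0 : ℂ) τ) t (hX'd _ (TCH_φ_mem l t₀ τ hl t ht))
      (TCH_φ_diff l t₀ τ t ht) (fun s hs => TCH_φ_mem l t₀ τ hl s hs)
  have ht₀G : t₀ ∈ TCH_G t₀ τ := by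
    have h1 : (1 : ℂ) + conj t₀ * t₀ ≠ 0 := by
      rw [mul_comm, Complex.mul_conj]
      have : (0 : ℝ) < 1 + Complex.normSq t₀ := by
        have := Complex.normSq_nonneg t₀; linarith
      exact_mod_cast this.ne'
    show ‖t₀ - t₀‖ < τ * ‖1 + conj t₀ * t₀‖
    rw [sub_self, norm_zero]
    exact mul_pos hτ0 (norm_pos_iff.mpr h1)
  have huG : u ∈ TCH_G t₀ τ := by
    have hne : (1 : ℂ) + conj u * t₀ ≠ 0 := by
      intro h
      have h1 : ‖conj u * t₀‖ = 1 := by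
        have : conj u * t₀ = -1 := by linear_combination h
        rw [this, norm_neg, norm_one]
      rw [norm_mul, RCLike.norm_conj, hu] at h1
      nlinarith [norm_nonneg t₀]
    have h2 : ‖(1 : ℂ) + conj t₀ * u‖ = ‖1 + conj u * t₀‖ := by
      rw [← RCLike.norm_conj (1 + conj u * t₀)]
      congr 1
      simp [mul_comm]
    show ‖u - t₀‖ < τ * ‖1 + conj t₀ * u‖
    rw [h2, norm_sub_rev]
    rwa [div_lt_iff₀ (norm_pos_iff.mpr hne)] at hlt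
  have hGo : IsOpen (TCH_G t₀ τ) := TCH_G_open t₀ τ
  have hGc : Convex ℝ (TCH_G t₀ τ) := TCH_G_convex t₀ τ hτ0 hr1 ht₀1
  -- identity theorem
  have hEq : EqOn Y X (TCH_G t₀ τ ∩ ball 0 ρ) := by
    have hU : IsOpen (TCH_G t₀ τ ∩ ball (0 : ℂ) ρ) := hGo.inter isOpen_ball
    have hpre : IsPreconnected (TCH_G t₀ τ ∩ ball (0 : ℂ) ρ) :=
      (hGc.inter (convex_ball 0 ρ)).isPreconnected
    have hYa : AnalyticOnNhd ℂ Y (TCH_G t₀ τ ∩ ball 0 ρ) :=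
      (hYd.mono inter_subset_left).analyticOnNhd hU
    have hXa : AnalyticOnNhd ℂ X (TCH_G t₀ τ ∩ ball 0 ρ) :=
      (hXd.mono inter_subset_right).analyticOnNhd hU
    apply hYa.eqOn_of_preconnected_of_eventuallyEq hXa hpre ⟨ht₀G, ht₀⟩
    -- equality near t₀
    have hφc : ContinuousAt (TCH_φ l t₀) t₀ :=
      ((TCH_φ_diff l t₀ τ).differentiableAt (hGo.mem_nhds ht₀G)).continuousAt
    have hφ0 : TCH_φ l t₀ t₀ = 0 := by simp [TCH_φ]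
    have h1 : ∀ᶠ t in 𝓝 t₀, TCH_φ l t₀ t ∈ ball (0 : ℂ) τ'' := by
      apply hφc.eventually_mem
      rw [hφ0]
      exact ball_mem_nhds 0 hτ''0
    have h2 : ∀ᶠ t in 𝓝 t₀, t ∈ TCH_G t₀ τ := hGo.mem_nhds ht₀G
    filter_upwards [h1, h2] with t h1 h2
    have h3 := huniq _ h1 (TCH_φ_mem l t₀ τ hl t h2)
    rw [TCH_φ_inv l t₀ t hl (TCH_G_ne t₀ τ t h2)] at h3
    rw [hY]
    exact h3.symm
  obtain ⟨δ, hδ0, hδ⟩ := Metric.isOpen_iff.mp hGo u huG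
  refine ⟨δ, Y, hδ0, hYd.mono hδ, fun s hs => (hX'e _ (TCH_φ_mem l t₀ τ hl s (hδ hs))).1, fun s hs hs' => hEq ⟨hδ hs, hs'⟩⟩

theorem TCH (hBRA : BRA_stmt) (hBRC : BRC_stmt) (hBRS : BRS_stmt) (hEXT : EXT_stmt) : TCH_stmt := by
  intro P Q hPQ z hz X hX h0 h1
  by_contra hcon
  push Not at hcon
  set ρ : ℝ := rh P Q z with hρ
  have hX' := hX
  obtain ⟨hXd, hX0, hXe⟩ := hX
  obtain ⟨ρ', Z, hρρ', hZd, hZX, hZv⟩ := hEXT ρ X h0 hXd (fun u hu => by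
    obtain ⟨t₀, ht₀, hlt⟩ := hcon u hu
    exact TCH_local hBRA hBRC hBRS P Q hPQ z hz X ρ hX' h0 h1 u hu t₀ ht₀ hlt)
  have hZ1 : ∀ t ∈ ball (0 : ℂ) ρ', Z t ∈ ball (0 : ℂ) 1 := by
    intro t ht
    by_cases h : t ∈ ball (0 : ℂ) ρ
    · rw [hZX t h]; exact (hXe t h).1
    · exact hZv t ht h
  have hρ'0 : 0 < ρ' := h0.trans hρρ'
  have hPZ : DifferentiableOn ℂ (fun t => P (Z t)) (ball 0 ρ') :=
    hPQ.1.comp hZd hZ1
  have hQZ : DifferentiableOn ℂ (fun t => Q (Z t)) (ball 0 ρ') :=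
    hPQ.2.1.comp hZd hZ1
  have hEq : EqOn (fun t => P (Z t) * (Q z + t * conj (P z))) (fun t => Q (Z t) * (P z - t * conj (Q z))) (ball 0 ρ') := by
    have hL : DifferentiableOn ℂ (fun t => P (Z t) * (Q z + t * conj (P z))) (ball 0 ρ') :=
      hPZ.mul (by fun_prop)
    have hR : DifferentiableOn ℂ (fun t => Q (Z t) * (P z - t * conj (Q z))) (ball 0 ρ') :=
      hQZ.mul (by fun_prop)
    apply (hL.analyticOnNhd isOpen_ball).eqOn_of_preconnected_of_eventuallyEq (hR.analyticOnNhd isOpen_ball)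
      (convex_ball 0 ρ').isPreconnected (mem_ball_self hρ'0)
    filter_upwards [ball_mem_nhds (0 : ℂ) h0] with t ht
    rw [hZX t ht]
    exact (hXe t ht).2
  have hBrZ : Br P Q (ball 0 1) z (min ρ' 1) Z := by
    have hsub : ball (0 : ℂ) (min ρ' 1) ⊆ ball 0 ρ' := ball_subset_ball (min_le_left _ _)
    refine ⟨hZd.mono hsub, ?_, fun t ht => ⟨hZ1 t (hsub ht), hEq (hsub ht)⟩⟩
    rw [hZX 0 (mem_ball_self h0), hX0]
  obtain ⟨-, -, -, -, hmax⟩ := hBRC P Q hPQ z hz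
  have := hmax (min ρ' 1) Z (min_le_right _ _) hBrZ
  have h2 : ρ < min ρ' 1 := lt_min hρρ' h1
  exact absurd this (not_le.mpr h2)

end Pool.Agent.P2I
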