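import Pool.Agent.helper56.P2.SpecU

set_option autoImplicit false

/-!
# P2 (MP_063734_an), row UHX: crossings of a slice
-/

namespace Pool.Agent.P2U

open MeasureTheory Set Filter Topology Metric Complex
open scoped ENNReal ContDiff

theorem UHX_deriv (P : ℂ × ℂ → ℂ) (x v : ℂ) (hP : AnalyticAt ℂ P (x, v)) :
    deriv (fun z : ℂ => P (z, v)) x = dx P (x, v) := by
  have h1 : HasDerivAt (fun z : ℂ => ((z, v) : ℂ × ℂ)) (1, 0) x :=
    (hasDerivAt_id x).prodMk (hasDerivAt_const x v)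
  have h2 : HasFDerivAt P (fderiv ℂ P (x, v)) (x, v) := hP.differentiableAt.hasFDerivAt
  exact (h2.comp_hasDerivAt x h1).deriv

theorem UHX_an (P : ℂ × ℂ → ℂ) (x v : ℂ) (hP : AnalyticAt ℂ P (x, v)) :
    AnalyticAt ℂ (fun z : ℂ => P (z, v)) x := by
  have h1 : AnalyticAt ℂ (fun z : ℂ => ((z, v) : ℂ × ℂ)) x := by fun_prop
  exact AnalyticAt.comp' hP h1

theorem UHX (hGRN : UGRN_stmt) (hTSA : UTSA_stmt) : UHX_stmt := by
  intro C0 α hC0 hα0 hα1
  refine ⟨384 * Real.pi * C0, by positivity, ?_⟩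
  intro P Q u D τ hDat hD v hv
  obtain ⟨hφc, hφ01, hφout, hφin, -, -, hφL⟩ := hTSA 3 (by norm_num)
  have hmem : ∀ x ∈ ball (0 : ℂ) 4, ((x, v) : ℂ × ℂ) ∈ TB 4 τ := by
    intro x hx
    exact ⟨by simpa using hx, hv⟩
  set f : ℂ → ℂ := fun x => P (x, v) with hf
  set g : ℂ → ℂ := fun x => Q (x, v) with hg
  have hfan : AnalyticOnNhd ℂ f (ball 0 4) := fun x hx =>
    UHX_an P x v (hDat.hol.hP _ (hmem x hx))
  have hgan : AnalyticOnNhd ℂ g (ball 0 4) := fun x hx =>
    UHX_an Q x v (hDat.hol.hQ _ (hmem x hx))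
  have hne : ∀ z ∈ ball (0 : ℂ) 4, f z ≠ 0 ∨ g z ≠ 0 := fun z hz => hDat.hol.ne _ (hmem z hz)
  have hsupp : Function.support (XS 3) ⊆ closedBall (0 : ℂ) 3 := by
    intro x hx
    by_contra h
    apply hx
    have h1 : (3 : ℝ) ≤ ‖x‖ := by
      rw [mem_closedBall_zero_iff, not_le] at h
      exact h.le
    exact (hφout x h1).1
  have htsupp : tsupport (XS 3) ⊆ closedBall (0 : ℂ) 3 :=
    closure_minimal hsupp isClosed_closedBall
  have hcomp : HasCompactSupport (XS 3) :=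
    HasCompactSupport.of_support_subset_isCompact (isCompact_closedBall 0 3) hsupp
  have hts4 : tsupport (XS 3) ⊆ ball (0 : ℂ) 4 :=
    htsupp.trans (closedBall_subset_ball (by norm_num))
  set c : ℝ := D * u (0, v) with hc
  have key := hGRN f g 4 hfan hgan hne (XS 3) hφc hcomp hts4 c
  set h : ℂ → ℝ := fun z => ‖g z * deriv f z - f z * deriv g z‖ ^ 2 /
    (‖f z‖ ^ 2 + ‖g z‖ ^ 2) ^ 2 with hh
  have hh0 : ∀ z, 0 ≤ h z := fun z => by positivity
  -- the right side
  have hD0 : 0 ≤ D := by linarith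
  have hbd : ∀ z ∈ closedBall (0 : ℂ) 3,
      |(Real.log (‖f z‖ ^ 2 + ‖g z‖ ^ 2) / 2 - c) * Lz (XS 3) z| ≤ 4 * D * C0 * (6 / 3 ^ 2) := by
    intro z hz
    have hz3 : ‖z‖ ≤ 3 := by simpa using hz
    have hz4 : z ∈ ball (0 : ℂ) 4 := by
      rw [mem_ball_zero_iff]
      linarith
    have h04 : (0 : ℂ) ∈ ball (0 : ℂ) 4 := by
      rw [mem_ball_zero_iff, norm_zero]
      norm_num
    have h1 := hDat.app _ (hmem z hz4)
    have h2 := hDat.hoe _ (hmem z hz4) _ (hmem 0 h04)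
    have h3 : ‖((z, v) : ℂ × ℂ) - (0, v)‖ = ‖z‖ := by
      rw [Prod.mk_sub_mk, sub_zero, sub_self, Prod.norm_mk, norm_zero]
      exact max_eq_left (norm_nonneg z)
    rw [h3] at h2
    have h4 : ‖z‖ ^ α ≤ 3 := by
      calc ‖z‖ ^ α ≤ (3 : ℝ) ^ α := Real.rpow_le_rpow (norm_nonneg z) hz3 hα0.le
        _ ≤ (3 : ℝ) ^ (1 : ℝ) := Real.rpow_le_rpow_of_exponent_le (by norm_num) hα1
        _ = 3 := Real.rpow_one 3
    have h5 : |u (z, v) - u (0, v)| ≤ C0 * 3 :=
      h2.trans (mul_le_mul_of_nonneg_left h4 (by linarith))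
    have h6 : |Real.log (‖f z‖ ^ 2 + ‖g z‖ ^ 2) / 2 - c| ≤ 4 * D * C0 := by
      have e : Real.log (‖f z‖ ^ 2 + ‖g z‖ ^ 2) / 2 - c =
          (Real.log (‖P (z, v)‖ ^ 2 + ‖Q (z, v)‖ ^ 2) / 2 - D * u (z, v)) +
            D * (u (z, v) - u (0, v)) := by
        rw [hc, hf, hg]
        ring
      rw [e]
      refine (abs_add_le _ _).trans ?_
      rw [abs_mul, abs_of_nonneg hD0]
      have h7 : D * |u (z, v) - u (0, v)| ≤ D * (C0 * 3) := mul_le_mul_of_nonneg_left h5 hD0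
      have h8 : C0 ≤ D * C0 := by nlinarith
      linarith
    rw [abs_mul]
    exact mul_le_mul h6 (hφL z) (abs_nonneg _) (by positivity)
  have hzero : ∀ z ∉ closedBall (0 : ℂ) 3,
      (Real.log (‖f z‖ ^ 2 + ‖g z‖ ^ 2) / 2 - c) * Lz (XS 3) z = 0 := by
    intro z hz
    rw [mem_closedBall_zero_iff, not_le] at hz
    rw [(hφout z hz.le).2.2, mul_zero]
  have hR : ∫ z, (Real.log (‖f z‖ ^ 2 + ‖g z‖ ^ 2) / 2 - c) * Lz (XS 3) z ≤
      4 * D * C0 * (6 / 3 ^ 2) * (9 * Real.pi) := by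
    have e1 : ∫ z, (Real.log (‖f z‖ ^ 2 + ‖g z‖ ^ 2) / 2 - c) * Lz (XS 3) z =
        ∫ z in closedBall (0 : ℂ) 3,
          (Real.log (‖f z‖ ^ 2 + ‖g z‖ ^ 2) / 2 - c) * Lz (XS 3) z :=
      (setIntegral_eq_integral_of_forall_compl_eq_zero hzero).symm
    rw [e1]
    have hvol : (volume : Measure ℂ).real (closedBall (0 : ℂ) 3) = 9 * Real.pi := by
      rw [Measure.real, Complex.volume_closedBall]
      simp
      ring
    have h1 := norm_setIntegral_le_of_norm_le_const (μ := volume) (s := closedBall (0 : ℂ) 3)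
      (f := fun z => (Real.log (‖f z‖ ^ 2 + ‖g z‖ ^ 2) / 2 - c) * Lz (XS 3) z)
      (C := 4 * D * C0 * (6 / 3 ^ 2)) (isCompact_closedBall 0 3).measure_lt_top
      (fun z hz => by rw [Real.norm_eq_abs]; exact hbd z hz)
    rw [hvol] at h1
    exact (le_abs_self _).trans h1
  have hL : ∫ z, XS 3 z * h z ≤ 48 * Real.pi * C0 * D := by
    have e : ∫ z, XS 3 z * h z = 2 * ∫ z, (Real.log (‖f z‖ ^ 2 + ‖g z‖ ^ 2) / 2 - c) *
      Lz (XS 3) z := key
    rw [e]
    have e2 : (48 : ℝ) * Real.pi * C0 * D = 2 * (4 * D * C0 * (6 / 3 ^ 2) * (9 * Real.pi)) := by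
      ring
    rw [e2]
    linarith
  -- integrability
  have hcont : ContinuousOn (fun z => XS 3 z * h z) (closedBall (0 : ℂ) 3) := by
    have hsub : closedBall (0 : ℂ) 3 ⊆ ball 0 4 := closedBall_subset_ball (by norm_num)
    have c1 : ContinuousOn f (closedBall (0 : ℂ) 3) := hfan.continuousOn.mono hsub
    have c2 : ContinuousOn g (closedBall (0 : ℂ) 3) := hgan.continuousOn.mono hsub
    have c3 : ContinuousOn (deriv f) (closedBall (0 : ℂ) 3) :=
      hfan.deriv.continuousOn.mono hsub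
    have c4 : ContinuousOn (deriv g) (closedBall (0 : ℂ) 3) :=
      hgan.deriv.continuousOn.mono hsub
    apply hφc.continuous.continuousOn.mul
    apply ContinuousOn.div
    · exact ((c2.mul c3).sub (c1.mul c4)).norm.pow 2
    · exact ((c1.norm.pow 2).add (c2.norm.pow 2)).pow 2
    · intro z hz
      have := hne z (hsub hz)
      have hpos : 0 < ‖f z‖ ^ 2 + ‖g z‖ ^ 2 := by
        rcases this with h1 | h1
        · have : 0 < ‖f z‖ := norm_pos_iff.mpr h1
          positivity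
        · have : 0 < ‖g z‖ := norm_pos_iff.mpr h1
          positivity
      positivity
  have hint : Integrable (fun z => XS 3 z * h z) := by
    apply IntegrableOn.integrable_of_forall_notMem_eq_zero
      (hcont.integrableOn_compact (isCompact_closedBall 0 3))
    intro z hz
    rw [mem_closedBall_zero_iff, not_le] at hz
    rw [(hφout z hz.le).1, zero_mul]
  have hle : ∫⁻ x in ball (0 : ℂ) 2, ENNReal.ofReal (‖cx P Q (x, v)‖ ^ 2 * om P Q (x, v)) ≤
      ∫⁻ x, ENNReal.ofReal (8 * (XS 3 x * h x)) := by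
    refine le_trans ?_ (setLIntegral_le_lintegral (ball (0 : ℂ) 2) _)
    apply setLIntegral_mono' measurableSet_ball
    intro x hx
    apply ENNReal.ofReal_le_ofReal
    have hx2 : ‖x‖ < 2 := by simpa using hx
    have hx4 : x ∈ ball (0 : ℂ) 4 := by
      rw [mem_ball_zero_iff]
      linarith
    have e1 : cx P Q (x, v) = g x * deriv f x - f x * deriv g x := by
      rw [hf, hg, UHX_deriv P x v (hDat.hol.hP _ (hmem x hx4)),
        UHX_deriv Q x v (hDat.hol.hQ _ (hmem x hx4))]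
      rfl
    have e2 : ‖cx P Q (x, v)‖ ^ 2 * om P Q (x, v) = h x := by
      rw [e1]
      simp only [om, hh, div_eq_mul_inv, hf, hg]
    rw [e2]
    have h8 : 1 / 8 ≤ XS 3 x := hφin x (by linarith)
    have := mul_le_mul_of_nonneg_right h8 (hh0 x)
    linarith
  refine hle.trans ?_
  rw [← ofReal_integral_eq_lintegral_ofReal (hint.const_mul 8)
    (Filter.Eventually.of_forall (fun x => by
      have h1 := (hφ01 x).1
      have h2 := hh0 x
      positivity))]
  apply ENNReal.ofReal_le_ofReal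
  rw [integral_const_mul]
  have e : 384 * Real.pi * C0 * D = 8 * (48 * Real.pi * C0 * D) := by ring
  rw [e]
  linarith

end Pool.Agent.P2U
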