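import Pool.Agent.helper15.P2.SpecN
import Pool.Agent.helper20.P2.NIS

set_option autoImplicit false

/-!
# Project P2 (MP_063734_an), row NOD: most points are good
-/

open scoped ContDiff Topology ComplexConjugate
open MeasureTheory Filter Set Metric MvPolynomial Pool.Agent.helper37.QA

namespace Pool.Agent.P2N

open Pool.Agent.P2 Pool.Agent.P2I

/-! ### tools -/

lemma NOD_congr {S : Set ℂ} (hS : S ⊆ ball 0 1) {g h : ℂ → ℝ} (hgh : ∀ z ∈ ball (0 : ℂ) 1, g z = h z) :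
    ∫ z in S, g z = ∫ z in S, h z := by
  apply integral_congr_ae
  have h1 : ∀ᵐ z ∂(volume.restrict (ball (0 : ℂ) 1)), g z = h z :=
    (ae_restrict_iff' measurableSet_ball).2 (ae_of_all _ hgh)
  exact ae_mono (Measure.restrict_mono hS le_rfl) h1

lemma NOD_hull (S : Set ℂ) (R : ℝ) (hS : S ⊆ ball 0 R) :
    ∃ S' : Set ℂ, MeasurableSet S' ∧ S ⊆ S' ∧ S' ⊆ ball 0 R ∧ ∀ g : ℂ → ℝ, ∫ z in S', g z = ∫ z in S, g z := by
  refine ⟨ball 0 R ∩ toMeasurable volume S, measurableSet_ball.inter (measurableSet_toMeasurable _ _),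
    subset_inter hS (subset_toMeasurable _ _), inter_subset_left, fun g => ?_⟩
  have h1 : (volume : Measure ℂ).restrict (ball 0 R ∩ toMeasurable volume S) = volume.restrict S := by
    rw [← Measure.restrict_restrict measurableSet_ball, Measure.restrict_toMeasurable_of_sFinite,
      Measure.restrict_restrict measurableSet_ball, inter_eq_self_of_subset_right hS]
  rw [h1]

lemma NOD_eta_nonneg (z : ℂ) : 0 ≤ eta z := Real.smoothTransition.nonneg _

lemma NOD_eta_le_one (z : ℂ) : eta z ≤ 1 := Real.smoothTransition.le_one _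

lemma NOD_eta_ball {z : ℂ} (h : eta z ≠ 0) : z ∈ ball (0 : ℂ) (791 / 1000) := by
  by_contra hz
  apply h
  refine Real.smoothTransition.zero_of_nonpos ?_
  rw [mem_ball_zero_iff, not_lt] at hz
  rw [Complex.normSq_eq_norm_sq]
  nlinarith [norm_nonneg z]

lemma NOD_union {g : ℂ → ℝ} (hg : ContinuousOn g (ball 0 1)) (hg0 : ∀ z, 0 ≤ g z) {A B : Set ℂ}
    (hA : MeasurableSet A) (hB : MeasurableSet B) (hA1 : A ⊆ ball 0 (9 / 10)) (hB1 : B ⊆ ball 0 (9 / 10)) :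
    ∫ z in A ∪ B, eta z ^ 2 * g z ≤ (∫ z in A, g z) + ∫ z in B, g z := by
  have hcb : closedBall (0 : ℂ) (9 / 10) ⊆ ball 0 1 := closedBall_subset_ball (by norm_num)
  have hI : IntegrableOn g (closedBall 0 (9 / 10)) :=
    (hg.mono hcb).integrableOn_compact (isCompact_closedBall _ _)
  have hI2 : IntegrableOn (fun z => eta z ^ 2 * g z) (closedBall 0 (9 / 10)) :=
    (((NIS_eta_cont.pow 2).continuousOn).mul (hg.mono hcb)).integrableOn_compact (isCompact_closedBall _ _)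
  have hU : A ∪ B ⊆ closedBall 0 (9 / 10) := (union_subset hA1 hB1).trans ball_subset_closedBall
  have h1 : ∫ z in A ∪ B, eta z ^ 2 * g z ≤ ∫ z in A ∪ B, g z := by
    refine setIntegral_mono_on (hI2.mono_set hU) (hI.mono_set hU) (hA.union hB) fun z _ => ?_
    have h2 : eta z ^ 2 ≤ 1 := pow_le_one₀ (NOD_eta_nonneg z) (NOD_eta_le_one z)
    nlinarith [hg0 z]
  have h3 : ∫ z in A ∪ B, g z = (∫ z in A, g z) + ∫ z in B \ A, g z := by
    rw [← union_sdiff_self]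
    exact setIntegral_union disjoint_sdiff_self_right (hB.diff hA)
      (hI.mono_set (hA1.trans ball_subset_closedBall))
      (hI.mono_set (sdiff_subset.trans (hB1.trans ball_subset_closedBall)))
  have h4 : ∫ z in B \ A, g z ≤ ∫ z in B, g z :=
    setIntegral_mono_set (hI.mono_set (hB1.trans ball_subset_closedBall)) (ae_of_all _ hg0)
      (ae_of_all _ sdiff_subset)
  linarith

lemma NOD_lap_mul (c : ℝ) (f : ℂ → ℝ) (z : ℂ) (hf : ContDiffAt ℝ 2 f z) :
    lap (fun x => c * f x) z = c * lap f z := by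
  unfold lap
  have h : iteratedFDeriv ℝ 2 (fun x => c * f x) z = c • iteratedFDeriv ℝ 2 f z :=
    iteratedFDeriv_const_smul_apply (a := c) (f := f) hf
  rw [h]
  simp only [_root_.smul_apply, smul_eq_mul]
  ring

lemma NOD_sph {d : ℕ} (f : Endo 2 d) (hd : 2 ≤ d) (k : ℕ) (Z : ℂ → E3) (z : ℂ) :
    sph (fun w => It f k (Z w) 0) (fun w => It f k (Z w) 1) z = 2 * (d : ℝ) ^ k * tau f k Z z := by
  have hd0 : (d : ℝ) ^ k ≠ 0 := by
    have : (0 : ℝ) < d := by exact_mod_cast (by omega : 0 < d)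
    positivity
  unfold sph Wr tau pq
  field_simp

lemma NOD_br_mono {P Q : ℂ → ℂ} {S S' : Set ℂ} {z : ℂ} {r r' : ℝ} {X : ℂ → ℂ} (h : Br P Q S z r X) (hS : S ⊆ S')
    (hr : r' ≤ r) : Br P Q S' z r' X := by
  have hb : ball (0 : ℂ) r' ⊆ ball 0 r := ball_subset_ball hr
  exact ⟨h.1.mono hb, h.2.1, fun t ht => ⟨hS (h.2.2 t (hb ht)).1, (h.2.2 t (hb ht)).2⟩⟩

/-- mass of level `k` and the mass of `sph` -/
lemma NOD_mass {d : ℕ} (f : Endo 2 d) (hd : 2 ≤ d) (k : ℕ) {Z : ℂ → E3} (hZ : DifferentiableOn ℂ Z (ball 0 1))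
    (hpos : ∀ w ∈ ball (0 : ℂ) 1, 0 < pq (It f k (Z w))) :
    2 * (d : ℝ) ^ k * mass f k Z ≤
      ∫ z in ball (0 : ℂ) (4 / 5), sph (fun w => It f k (Z w) 0) (fun w => It f k (Z w) 1) z := by
  have hc := NIS_tau_cont f k hZ hpos
  have hcb : closedBall (0 : ℂ) (4 / 5) ⊆ ball 0 1 := closedBall_subset_ball (by norm_num)
  have h1 : mass f k Z = ∫ z in ball (0 : ℂ) (4 / 5), eta z ^ 2 * tau f k Z z := by
    unfold mass
    rw [setIntegral_eq_integral_of_forall_compl_eq_zero]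
    intro z hz
    rw [mem_ball_zero_iff, not_lt] at hz
    rw [NIS_eta_zero hz]; ring
  have h2 : ∫ z in ball (0 : ℂ) (4 / 5), eta z ^ 2 * tau f k Z z ≤ ∫ z in ball (0 : ℂ) (4 / 5), tau f k Z z := by
    refine setIntegral_mono_on ?_ ?_ measurableSet_ball fun z _ => ?_
    · exact ((((NIS_eta_cont.pow 2).continuousOn).mul (hc.mono hcb)).integrableOn_compact
        (isCompact_closedBall _ _)).mono_set ball_subset_closedBall
    · exact ((hc.mono hcb).integrableOn_compact (isCompact_closedBall _ _)).mono_set ball_subset_closedBall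
    · have h2 : eta z ^ 2 ≤ 1 := pow_le_one₀ (NOD_eta_nonneg z) (NOD_eta_le_one z)
      nlinarith [NIS_tau_nonneg f k Z z]
  have h3 : ∫ z in ball (0 : ℂ) (4 / 5), sph (fun w => It f k (Z w) 0) (fun w => It f k (Z w) 1) z =
      2 * (d : ℝ) ^ k * ∫ z in ball (0 : ℂ) (4 / 5), tau f k Z z := by
    rw [← integral_const_mul]
    exact setIntegral_congr_fun measurableSet_ball fun z _ => NOD_sph f hd k Z z
  rw [h3, h1]
  exact mul_le_mul_of_nonneg_left h2 (by positivity)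

/-- final inequality -/
lemma NOD_num {Kb ε C0 C1 Cr Ck L M D I1 I2 : ℝ} (hKb : 0 < Kb) (hε : 0 < ε) (hC0 : 0 < C0) (hC1 : 0 < C1)
    (hCr : 0 < Cr) (hCk : 0 < Ck) (hD : 1 ≤ D)
    (hL : 8 * C0 * (1 + C1) * Kb / ε ≤ L) (hL0 : 0 < L) (hM : 1600 * Cr * (1 + C1) / ε ≤ M) (hM0 : 0 < M)
    (h1 : I1 ≤ C0 * (1 + C1) * (2 * Kb * D * M) / L + Cr * (1 + C1) / (1 / 20) ^ 2)
    (h2 : I2 ≤ Ck * (2 * Kb * D * M) * (ε / (8 * Ck * Kb))) :
    I1 / D + I2 / D ≤ ε * M := by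
  have hD0 : 0 < D := by linarith
  have h3 : C0 * (1 + C1) * (2 * Kb * D * M) / L ≤ ε / 4 * (D * M) := by
    rw [div_le_iff₀ hL0]
    rw [div_le_iff₀ hε] at hL
    have : 0 < D * M := mul_pos hD0 hM0
    nlinarith
  have h4 : Cr * (1 + C1) / (1 / 20) ^ 2 ≤ ε / 4 * (D * M) := by
    rw [div_le_iff₀ hε] at hM
    have h5 : Cr * (1 + C1) / (1 / 20) ^ 2 = 400 * (Cr * (1 + C1)) := by ring
    rw [h5]
    have h6 : M ≤ D * M := by nlinarith
    nlinarith
  have h5 : Ck * (2 * Kb * D * M) * (ε / (8 * Ck * Kb)) = ε / 4 * (D * M) := by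
    field_simp
    ring
  rw [h5] at h2
  rw [← add_div, div_le_iff₀ hD0]
  nlinarith [mul_pos hD0 hM0]

theorem NOD (hUN1 : UN1_stmt) (hMSS : MSS_stmt) (hRAD : RAD_stmt) (hDMS : DMS_stmt) (hCH1 : CH1_stmt) (hIX4 : IX4_stmt) (hNSM : NSM_stmt) (hNIS : NIS_stmt) : NOD_stmt := by
  intro d f U hd hU Kb ε hKb hε
  obtain ⟨C1, hC1, hU1, -, hU3, -⟩ := hUN1 d f U hd hU
  obtain ⟨rR, hrR0, hrR1, hrad⟩ := hRAD.1 d f U hU.1
  obtain ⟨CD, hCD, -, hD2, -, -⟩ := hDMS d f U rR hd hU hrR0 hrR1 hrad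
  obtain ⟨C0, hC0, hI4⟩ := hIX4
  -- the radius
  set L : ℝ := 3 + 8 * C0 * (1 + C1) * Kb / ε with hLdef
  have hL3 : 3 ≤ L := by
    have : 0 ≤ 8 * C0 * (1 + C1) * Kb / ε := by positivity
    linarith
  set r : ℝ := Real.exp (-L) with hrdef
  have hr0 : 0 < r := Real.exp_pos _
  have hr8 : r ≤ 1 / 8 := by
    have h1 : r ≤ Real.exp (-3) := Real.exp_le_exp.2 (by linarith)
    have h2 : (8 : ℝ) ≤ Real.exp 3 := by
      have h3 : (2 : ℝ) ≤ Real.exp 1 := by
        have := Real.add_one_le_exp (1 : ℝ); linarith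
      have h4 : Real.exp 3 = Real.exp 1 ^ 3 := by rw [← Real.exp_nat_mul]; norm_num
      rw [h4]
      calc (8 : ℝ) = 2 ^ 3 := by norm_num
        _ ≤ Real.exp 1 ^ 3 := pow_le_pow_left₀ (by norm_num) h3 3
    have h5 : Real.exp (-3) ≤ 1 / 8 := by
      rw [Real.exp_neg, inv_eq_one_div]
      exact one_div_le_one_div_of_le (by norm_num) h2
    linarith
  have hlog : Real.log (1 / r) = L := by
    rw [hrdef, one_div, ← Real.exp_neg, neg_neg, Real.log_exp]
  obtain ⟨Cr, hCr, hI4'⟩ := hI4 r hr0 hr8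
  refine ⟨r / 4, by positivity, by linarith, fun κ hκ hκr => ?_⟩
  obtain ⟨Ck, hCk, hNS⟩ := hNSM (κ / 5) (by positivity) (by linarith)
  set δ : ℝ := ε / (8 * Ck * Kb) with hδdef
  have hδ : 0 < δ := by positivity
  set Cr0 : ℝ := CD + 2 + C1 / Kb + 1 / Kb + L / Kb + 1600 * Cr * (1 + C1) / ε with hCr0
  refine ⟨δ, ⌈Cr0⌉₊, hδ, fun k N Z _ hkN hZ hM hub => ?_⟩
  have hkN' : k ≤ N := le_trans (Nat.le_add_right _ _) hkN
  set M : ℝ := mass f N Z with hMdef
  have hMC : Cr0 ≤ M := (Nat.le_ceil _).trans hM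
  have p1 : 0 ≤ C1 / Kb := by positivity
  have p2 : 0 ≤ 1 / Kb := by positivity
  have p3 : 0 ≤ L / Kb := by positivity
  have p4 : 0 ≤ 1600 * Cr * (1 + C1) / ε := by positivity
  have m1 : CD + 2 ≤ M := by linarith
  have m2 : C1 ≤ Kb * M := by
    have : C1 / Kb ≤ M := by linarith
    rwa [div_le_iff₀' hKb] at this
  have m3 : 1 ≤ Kb * M := by
    have : 1 / Kb ≤ M := by linarith
    rwa [div_le_iff₀' hKb] at this
  have m4 : L ≤ Kb * M := by
    have : L / Kb ≤ M := by linarith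
    rwa [div_le_iff₀' hKb] at this
  have m5 : 1600 * Cr * (1 + C1) / ε ≤ M := by linarith
  have hM0 : 0 < M := by linarith
  have hKM : 0 < Kb * M := mul_pos hKb hM0
  have hd1 : (1 : ℝ) ≤ d := by exact_mod_cast (by omega : 1 ≤ d)
  set D : ℝ := (d : ℝ) ^ k with hDdef
  have hD1 : 1 ≤ D := one_le_pow₀ hd1
  have hD0 : 0 < D := by linarith
  obtain ⟨hZd, hZU⟩ := hZ
  have hcone : ∀ w ∈ ball (0 : ℂ) 1, Z w ∈ cone (closure U) := by
    intro w hw
    obtain ⟨h, hmem⟩ := hZU w hw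
    exact ⟨h, subset_closure hmem⟩
  have hposn : ∀ n : ℕ, ∀ w ∈ ball (0 : ℂ) 1, 0 < pq (It f n (Z w)) := fun n w hw => (hU3 n (Z w) (hcone w hw)).1
  have hdiff : ∀ (n : ℕ) (i : Fin 3), DifferentiableOn ℂ (fun w => It f n (Z w) i) (ball 0 1) := fun n i =>
    (NIS_Itd f n i).comp_differentiableOn hZd
  have hne : ∀ n : ℕ, ∀ z ∈ ball (0 : ℂ) 1, It f n (Z z) 0 ≠ 0 ∨ It f n (Z z) 1 ≠ 0 := by
    intro n z hz
    by_contra hcon
    push Not at hcon
    have h1 := hposn n z hz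
    unfold pq at h1
    rw [hcon.1, hcon.2] at h1
    simp at h1
  set P : ℂ → ℂ := fun w => It f k (Z w) 0 with hP
  set Q : ℂ → ℂ := fun w => It f k (Z w) 1 with hQ
  have hAdm : P2I.Adm P Q := ⟨hdiff k 0, hdiff k 1, hne k⟩
  have hUp : ∀ z, Up P Q z = D * un f k (Z z) := by
    intro z
    have h1 : D ≠ 0 := hD0.ne'
    simp only [Up, un, pq, hP, hQ]
    rw [mul_div_cancel₀ _ h1]
  set V : ℂ → ℝ := fun z => D * un f N (Z z) with hV
  have hVs0 : ContDiffOn ℝ ∞ (fun z => un f N (Z z)) (ball 0 1) := by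
    have h1 := (hCH1.2 (ball 0 1) (fun w => It f N (Z w) 0) (fun w => It f N (Z w) 1) isOpen_ball
      (hdiff N 0) (hdiff N 1) (hne N)).1
    exact h1.div_const ((d : ℝ) ^ N)
  have hVs : ContDiffOn ℝ ∞ V (ball 0 1) := contDiffOn_const.mul hVs0
  have hVlap : ∀ z ∈ ball (0 : ℂ) 1, lap V z = D * tau f N Z z := by
    intro z hz
    rw [(hMSS d f U hd hU Z ⟨hZd, hZU⟩ N).1 z hz]
    exact NOD_lap_mul D (fun z => un f N (Z z)) z
      ((hVs0.contDiffAt (isOpen_ball.mem_nhds hz)).of_le ENat.LEInfty.out)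
  have hVlap0 : ∀ z ∈ ball (0 : ℂ) 1, 0 ≤ lap V z := by
    intro z hz
    rw [hVlap z hz]
    exact mul_nonneg hD0.le (NIS_tau_nonneg f N Z z)
  have hVU : ∀ z ∈ ball (0 : ℂ) 1, |V z - Up P Q z| ≤ C1 := by
    intro z hz
    have h1 := hU1 k N hkN' (Z z) (hcone z hz)
    rw [hUp, hV]
    have h2 : D * un f N (Z z) - D * un f k (Z z) = D * (un f N (Z z) - un f k (Z z)) := by ring
    show |D * un f N (Z z) - D * un f k (Z z)| ≤ C1
    rw [h2, abs_mul, abs_of_pos hD0]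
    calc D * |un f N (Z z) - un f k (Z z)| ≤ D * (C1 / D) := mul_le_mul_of_nonneg_left h1 hD0.le
      _ = C1 := by field_simp
  set E : ℝ := 2 * Kb * D * M with hE
  have hKMD : Kb * M ≤ Kb * M * D := by nlinarith
  have hE1 : 1 ≤ E := by
    have : E = 2 * (Kb * M * D) := by rw [hE]; ring
    linarith
  have hLE : Real.log (1 / r) ≤ E := by
    have : E = 2 * (Kb * M * D) := by rw [hE]; ring
    linarith
  have hUpE : ∀ z ∈ ball (0 : ℂ) 1, |Up P Q z| ≤ E := by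
    intro z hz
    have h1 := hVU z hz
    have h2 : |V z| ≤ D * (Kb * M) := by
      show |D * un f N (Z z)| ≤ D * (Kb * M)
      rw [abs_mul, abs_of_pos hD0]
      exact mul_le_mul_of_nonneg_left (hub z hz) hD0.le
    have h3 : |Up P Q z| ≤ |V z| + |V z - Up P Q z| := by
      have h4 : Up P Q z = V z - (V z - Up P Q z) := by ring
      calc |Up P Q z| = |V z - (V z - Up P Q z)| := by rw [← h4]
        _ ≤ |V z| + |V z - Up P Q z| := abs_sub _ _
    have h4 : E = 2 * (Kb * M * D) := by rw [hE]; ring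
    have h5 : D * (Kb * M) = Kb * M * D := by ring
    linarith
  have hmass4 : 4 ≤ ∫ z in ball (0 : ℂ) (4 / 5), sph P Q z := by
    have h1 := NOD_mass f hd k hZd (hposn k)
    have h2 := hD2 N k Z ⟨hZd, hZU⟩
    have h3 : M - CD ≤ mass f k Z := by
      have := (abs_le.1 h2).2; linarith
    have h4 : (2 : ℝ) ≤ mass f k Z := by linarith
    have h5 : 2 * 1 * 2 ≤ 2 * D * mass f k Z := by
      have : 1 * 2 ≤ D * mass f k Z := mul_le_mul hD1 h4 (by norm_num) hD0.le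
      nlinarith
    linarith
  -- the first bad set
  have hB1 := hI4' P Q V E C1 (1 / 20) hAdm hE1 hUpE hmass4 hVs hVlap0 hC1.le hVU hLE (by norm_num)
  set S1 : Set ℂ := ball (0 : ℂ) (791 / 1000) ∩ {z | ¬ ∃ X : ℂ → ℂ, Br P Q (ball 0 1 ∩ ball z (1 / 20)) z r X} with hS1
  obtain ⟨B1, hB1m, hS1B, hB1s, hB1i⟩ := NOD_hull S1 (791 / 1000) inter_subset_left
  rw [hlog] at hB1
  -- the second bad set
  set S2 : Set ℂ := {z | z ∈ ball (0 : ℂ) (791 / 1000) ∧ ∃ X : ℂ → ℂ, Br P Q (ball 0 1 ∩ ball z (1 / 20)) z r X ∧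
    ∫ w in X '' ball 0 (κ / 10), lap V w ≤ δ} with hS2
  have hκ5 : κ / 5 / 2 = κ / 10 := by ring
  obtain ⟨B2, hB2m, hB2s, hS2B, hB2i⟩ := hNS P Q V E δ S2 hAdm hE1 hUpE hVs hVlap0 hδ.le
    (fun z hz => ball_subset_ball (by norm_num) hz.1)
    (fun x hx => by
      obtain ⟨-, X, hX, hXi⟩ := hx
      refine ⟨X, NOD_br_mono hX le_rfl (by linarith), ?_⟩
      rw [hκ5]
      exact hXi)
  have h790 : ball (0 : ℂ) (791 / 1000) ⊆ ball 0 (9 / 10) := ball_subset_ball (by norm_num)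
  have h91 : ball (0 : ℂ) (9 / 10) ⊆ ball 0 1 := ball_subset_ball (by norm_num)
  have hconv : ∀ S : Set ℂ, S ⊆ ball 0 1 → ∫ z in S, lap V z = D * ∫ z in S, tau f N Z z := by
    intro S hS
    rw [NOD_congr hS hVlap, integral_const_mul]
  refine ⟨B1 ∪ B2, hB1m.union hB2m, ?_, ?_⟩
  · intro z hz hη hzB ι c hc hx
    have hz7 := NOD_eta_ball hη
    have hz1 : z ∉ S1 := fun h => hzB (Or.inl (hS1B h))
    have hz2 : z ∉ S2 := fun h => hzB (Or.inr (hS2B h))
    have hex : ∃ X : ℂ → ℂ, Br P Q (ball 0 1 ∩ ball z (1 / 20)) z r X := by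
      by_contra hcon
      exact hz1 ⟨hz7, hcon⟩
    obtain ⟨X, hX⟩ := hex
    have hint : δ < ∫ w in X '' ball 0 (κ / 10), lap V w := by
      by_contra hcon
      exact hz2 ⟨hz7, X, hX, not_lt.1 hcon⟩
    obtain ⟨g, γ, hIsl, hξ, hgm⟩ := hNIS d f U hd hU r κ hκ hκr hr8 k N Z z X hkN' ⟨hZd, hZU⟩ hz
      (NOD_br_mono hX inter_subset_left le_rfl) ι c hc hx
    refine ⟨g, γ, hIsl, hξ, ?_⟩
    have hsub : X '' ball 0 (κ / 10) ⊆ ball 0 1 := by
      rintro w ⟨t, ht, rfl⟩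
      exact (hX.2.2 t (ball_subset_ball (by linarith) ht)).1.1
    rw [hconv _ hsub] at hint
    linarith
  · have htc := NIS_tau_cont f N hZd (hposn N)
    have h1 := NOD_union htc (NIS_tau_nonneg f N Z) hB1m hB2m (hB1s.trans h790) hB2s
    have h2 : ∫ z in B1, tau f N Z z = (∫ z in S1, lap V z) / D := by
      rw [← hB1i (lap V), hconv B1 ((hB1s.trans h790).trans h91)]
      field_simp
    have h3 : ∫ z in B2, tau f N Z z = (∫ z in B2, lap V z) / D := by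
      rw [hconv B2 (hB2s.trans h91)]
      field_simp
    rw [h2, h3] at h1
    have hL8 : 8 * C0 * (1 + C1) * Kb / ε ≤ L := by linarith
    exact h1.trans (NOD_num hKb hε hC0 hC1 hCr hCk hD1 hL8 (by linarith) m5 hM0 hB1 hB2i)

end Pool.Agent.P2N
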