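import Pool.Agent.helper83.P2.SpecX

set_option autoImplicit false

/-!
# P2 (MP_063734_an), row XLP: Lipschitz constant by the Schwarz lemma
-/

namespace Pool.Agent.P2

open Metric Set Filter Topology Finset

theorem XLP : XLP_stmt := by
  intro h hd hb
  have hsub : ∀ p ∈ Qd, p ∈ ball (0 : ℂ × ℂ) 1 := by
    intro p hp
    have h1 : ‖p‖ ≤ 1 / 4 := by simpa using hp
    have h2 : ‖p‖ < 1 := by linarith
    simpa using h2
  refine ⟨fun p hp => hb p (hsub p hp), ?_⟩
  intro p hp q hq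
  by_cases hpq : p = q
  · subst hpq
    simp
  have hp1 : ‖p‖ ≤ 1 / 4 := by simpa using hp
  have hq1 : ‖q‖ ≤ 1 / 4 := by simpa using hq
  have hr0 : 0 < ‖q - p‖ := norm_pos_iff.mpr (sub_ne_zero.mpr (Ne.symm hpq))
  have hr1 : ‖q - p‖ ≤ 1 / 2 := by
    have := norm_sub_le q p
    linarith
  set r : ℝ := ‖q - p‖ with hr
  have hrc : (r : ℂ) ≠ 0 := by exact_mod_cast hr0.ne'
  set φ : ℂ → ℂ := fun t => h (p + (t / (r : ℂ)) • (q - p)) with hφ
  have hin : ∀ t ∈ ball (0 : ℂ) (3 / 4), p + (t / (r : ℂ)) • (q - p) ∈ ball (0 : ℂ × ℂ) 1 := by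
    intro t ht
    have ht1 : ‖t‖ < 3 / 4 := by simpa using ht
    have h1 : ‖(t / (r : ℂ)) • (q - p)‖ = ‖t‖ := by
      rw [norm_smul, norm_div, ← hr, Complex.norm_real, Real.norm_eq_abs, abs_of_pos hr0]
      exact div_mul_cancel₀ _ hr0.ne'
    have h2 : ‖p + (t / (r : ℂ)) • (q - p)‖ < 1 := by
      have := norm_add_le p ((t / (r : ℂ)) • (q - p))
      rw [h1] at this
      linarith
    simpa using h2
  have hφd : DifferentiableOn ℂ φ (ball 0 (3 / 4)) := by
    have hg : DifferentiableOn ℂ (fun t : ℂ => p + (t / (r : ℂ)) • (q - p)) (ball 0 (3 / 4)) := by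
      apply Differentiable.differentiableOn
      exact (differentiable_const p).add
        ((differentiable_id.div_const (r : ℂ)).smul (differentiable_const (q - p)))
    exact hd.comp hg hin
  have hφb : ∀ t ∈ ball (0 : ℂ) (3 / 4), ‖φ t‖ ≤ 1 / 4 := fun t ht => hb _ (hin t ht)
  have h0 : (0 : ℂ) ∈ ball (0 : ℂ) (3 / 4) := by simp
  have hmaps : MapsTo φ (ball 0 (3 / 4)) (closedBall (φ 0) (9 / 16)) := by
    intro t ht
    rw [mem_closedBall, dist_eq_norm]
    have := norm_sub_le (φ t) (φ 0)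
    have h1 := hφb t ht
    have h2 := hφb 0 h0
    linarith
  have hrm : (r : ℂ) ∈ ball (0 : ℂ) (3 / 4) := by
    rw [mem_ball_zero_iff, Complex.norm_real, Real.norm_eq_abs, abs_of_pos hr0]
    linarith
  have key := Complex.dist_le_div_mul_dist_of_mapsTo_ball hφd hmaps hrm
  have e1 : φ (r : ℂ) = h q := by
    simp only [hφ]
    rw [div_self hrc, one_smul, add_sub_cancel]
  have e0 : φ 0 = h p := by
    simp only [hφ]
    rw [zero_div, zero_smul, add_zero]
  rw [e1, e0, dist_eq_norm, dist_zero_right, Complex.norm_real, Real.norm_eq_abs,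
    abs_of_pos hr0] at key
  rw [norm_sub_rev (h p) (h q), norm_sub_rev p q, ← hr]
  calc ‖h q - h p‖ ≤ 9 / 16 / (3 / 4) * r := key
    _ = 3 / 4 * r := by ring

end Pool.Agent.P2
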